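import Pool.Agent.Helper68.ES.St3

/-!
# Project ES (MP_cb927e_an), module INR: few inner rich directions
-/

set_option autoImplicit false

open MeasureTheory Set Filter Topology
open scoped ENNReal RealInnerProductSpace

namespace Pool.Agent.Helper84.ES

open Pool.Agent.Helper68.ES Pool.Agent.Helper68.EP Pool.Agent.Helper20.RG
open Pool.Agent.Helper20.RL (RQ Rich BM Fml Hit)
open Pool.Agent.Helper68.LM (Pl BB Bd Av HL ft fm DQ)

/-- the inner points of the layer `l` lie on the ridges of the set `Gl` -/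
theorem In_subset (hDRI : StDRI) {H N : Set Pl} {κ : Pl → ℤ} {g : ℕ} {κ₀ s : ℝ} (hNH : N ⊆ H)
    (hκ₀ : 0 < κ₀) (hG : ∀ l : ℤ, BM (Gl H N κ g l)) :
    In H N κ g κ₀ s ⊆ ⋃ l : ℤ, Gl H N κ g l ∩
      Ri (Gl H N κ g l) s ((l + 3) * g) ((l + 1) * g) κ₀ ((2 : ℝ) ^ ((l + 3) * (g : ℤ))) := by
  rintro z ⟨hzN, w, hw, hr⟩
  refine mem_iUnion.2 ⟨κ z / (g : ℤ), ⟨hNH hzN, le_rfl, z, hzN, rfl, ?_⟩, ?_⟩
  · constructor <;> simp
  · exact (hDRI (Gl H N κ g (κ z / (g : ℤ))) s _ _ κ₀ (hG _) hκ₀).2.2.1 _ z (by positivity)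
      ⟨w, hw, hr⟩

/-- the layers are measurable -/
theorem meas_Ly {N : Set Pl} {κ : Pl → ℤ} {g : ℕ} (hg : 1 ≤ g)
    (hm : ∀ b : ℤ, MeasurableSet {z | z ∈ N ∧ κ z ≤ b}) (l : ℤ) : MeasurableSet (Ly N κ g l) := by
  have h1 : Ly N κ g l = {z | z ∈ N ∧ κ z ≤ (l + 1) * g - 1} \ {z | z ∈ N ∧ κ z ≤ l * g - 1} := by
    ext z
    have hg0 : (0 : ℤ) < g := by exact_mod_cast hg
    have h2 : κ z / (g : ℤ) = l ↔ l * g ≤ κ z ∧ κ z < (l + 1) * g := by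
      rw [Int.ediv_eq_iff_of_pos hg0]
      constructor
      · rintro ⟨h3, h4⟩
        exact ⟨by linarith, by linarith⟩
      · rintro ⟨h3, h4⟩
        exact ⟨by linarith, by linarith⟩
    simp only [Ly, mem_setOf_eq, mem_diff, h2]
    constructor
    · rintro ⟨h3, h4, h5⟩
      exact ⟨⟨h3, by omega⟩, fun h6 => by have := h6.2; omega⟩
    · rintro ⟨⟨h3, h4⟩, h5⟩
      refine ⟨h3, ?_, by omega⟩
      by_contra h6
      exact h5 ⟨h3, by omega⟩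
  rw [h1]
  exact (hm _).diff (hm _)

/-- the sum of the measures of the layers -/
theorem tsum_Ly {N : Set Pl} {κ : Pl → ℤ} {g : ℕ} (hg : 1 ≤ g)
    (hm : ∀ b : ℤ, MeasurableSet {z | z ∈ N ∧ κ z ≤ b}) :
    ∑' l : ℤ, volume (Ly N κ g l) ≤ volume N := by
  rw [← measure_iUnion (fun l l' hll => ?_) (meas_Ly hg hm)]
  · exact measure_mono (iUnion_subset fun l z hz => hz.1)
  · rw [Function.onFun, Set.disjoint_left]
    rintro z ⟨_, h1⟩ ⟨_, h2⟩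
    exact hll (h1.symm.trans h2)

theorem hINR (hDRI : StDRI) (hDRT : StDRT) (hLAY : StLAY) : Pool.Agent.Helper68.ES.StINR := by
  obtain ⟨C₀, hC₀, hD⟩ := hDRT
  refine ⟨25 * C₀, by linarith, ?_⟩
  intro H κ g g' D' d₀ κ₀ nst J sl hH hK hg hD' hd₀ hCκ hκ1 hg' hgg hsl hnst hsep
  obtain ⟨⟨-, hNH, hNm⟩, -, hG⟩ := hLAY H κ g D' d₀ hH hK hg hD' hd₀
  set N := Ns H κ g d₀ with hN
  have hκ₀ : 0 < κ₀ := lt_of_lt_of_le (by positivity) hCκ
  have hCκ' : C₀ * D' ≤ κ₀ := le_trans (by nlinarith) hCκ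
  have hrow : ∀ l : ℤ, ∑ j ∈ J, volume (Gl H N κ g l ∩
      Ri (Gl H N κ g l) (sl j) ((l + 3) * g) ((l + 1) * g) κ₀ ((2 : ℝ) ^ ((l + 3) * (g : ℤ)))) ≤
      ENNReal.ofReal (25 * C₀ * nst * (1 + D' / κ₀ ^ 2) * (D' / d₀)) * volume (Ly N κ g l) := by
    intro l
    obtain ⟨h1, h2, h3⟩ := hG l
    have h4 := hD J g' sl (Gl H N κ g l) ((l + 3) * g) ((l + 1) * g) D' κ₀ nst hsl h1 hD' hCκ' hκ1
      hg' (by have : (18 * g' : ℤ) ≤ 2 * g := by exact_mod_cast hgg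
              linarith) h2 hnst hsep
    refine h4.trans ?_
    calc ENNReal.ofReal (C₀ * nst * (1 + D' / κ₀ ^ 2)) * volume (Gl H N κ g l)
        ≤ ENNReal.ofReal (C₀ * nst * (1 + D' / κ₀ ^ 2)) *
          (ENNReal.ofReal (25 * D' / d₀) * volume (Ly N κ g l)) := by gcongr
      _ = ENNReal.ofReal (25 * C₀ * nst * (1 + D' / κ₀ ^ 2) * (D' / d₀)) *
          volume (Ly N κ g l) := by
        rw [← mul_assoc, ← ENNReal.ofReal_mul (by positivity)]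
        congr 2
        ring
  calc ∑ j ∈ J, volume (In H N κ g κ₀ (sl j))
      ≤ ∑ j ∈ J, ∑' l : ℤ, volume (Gl H N κ g l ∩
        Ri (Gl H N κ g l) (sl j) ((l + 3) * g) ((l + 1) * g) κ₀ ((2 : ℝ) ^ ((l + 3) * (g : ℤ)))) := by
        refine Finset.sum_le_sum fun j _ => ?_
        exact (measure_mono (In_subset hDRI hNH hκ₀ fun l => (hG l).1)).trans
          (measure_iUnion_le _)
    _ = ∑' l : ℤ, ∑ j ∈ J, volume (Gl H N κ g l ∩
        Ri (Gl H N κ g l) (sl j) ((l + 3) * g) ((l + 1) * g) κ₀ ((2 : ℝ) ^ ((l + 3) * (g : ℤ)))) :=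
        (Summable.tsum_finsetSum fun _ _ => ENNReal.summable).symm
    _ ≤ ∑' l : ℤ, ENNReal.ofReal (25 * C₀ * nst * (1 + D' / κ₀ ^ 2) * (D' / d₀)) *
        volume (Ly N κ g l) := ENNReal.tsum_le_tsum hrow
    _ = ENNReal.ofReal (25 * C₀ * nst * (1 + D' / κ₀ ^ 2) * (D' / d₀)) *
        ∑' l : ℤ, volume (Ly N κ g l) := ENNReal.tsum_mul_left
    _ ≤ ENNReal.ofReal (25 * C₀ * nst * (1 + D' / κ₀ ^ 2) * (D' / d₀)) * volume N := by
        gcongr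
        exact tsum_Ly hg hNm

end Pool.Agent.Helper84.ES
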